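import Mathlib
import Pool.Agent.H.MP_f1805c_gt.A

open Set Filter Topology Pool.Agent.H.MP_f1805c_gt

namespace Pool.Agent.Results.MP_f1805c_gt.NotMinimal

theorem result : ∃ (G : Type) (_ : AddCommGroup G) (t : TopologicalSpace G),
    IsTopologicalAddGroup G ∧ T2Space G ∧
    (∀ U : ℕ → Set G, (∀ n, IsOpen (U n)) → univ ⊆ ⋃ n, U n →
      ∃ s : Finset ℕ, univ ⊆ ⋃ n ∈ s, U n) ∧
    (∀ f : G → ℝ, Continuous f → ∃ C : ℝ, ∀ x, |f x| ≤ C) ∧
    (∀ f : G ≃+ G, Continuous f → IsOpenMap f) ∧
    ∃ s : TopologicalSpace G, @IsTopologicalAddGroup G s _ ∧ @T2Space G s ∧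
      (∀ U : Set G, @IsOpen G s U → @IsOpen G t U) ∧ s ≠ t := by
  classical
  have hc : IsCountablyCompact (univ : Set (Sig ℝ)) :=
    isCountablyCompact_iff_seq_clusterPt.2 fun u _ => (cluster u).imp fun _ h => ⟨trivial, h⟩
  let δ : Sig ℝ →+ (ℝ → ZMod 2) :=
    { toFun := fun x i => x.1 i - x.1 0
      map_zero' := by ext; simp
      map_add' := fun x y => by ext; simp; ring }
  have hδ : Continuous δ := continuous_pi fun i =>
    ((continuous_apply i).comp continuous_subtype_val).sub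
      ((continuous_apply 0).comp continuous_subtype_val)
  have hi : Function.Injective δ := (injective_iff_map_eq_zero δ).2 fun x hx => by
    obtain ⟨i, hi⟩ := exists_zero x
    have h := fun j => sub_eq_zero.1 (congrFun hx j)
    ext j
    exact (h j).trans ((h i).symm.trans hi)
  refine ⟨Sig ℝ, inferInstance, inferInstance, inferInstance, inferInstance,
    isCountablyCompact_iff_countable_open_cover.1 hc, fun f hf => ?_, fun f hf => ?_,
    TopologicalSpace.induced δ inferInstance, topologicalAddGroup_induced δ, ?_,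
    continuous_iff_le_induced.1 hδ, fun h => ?_⟩
  · obtain ⟨C, hC⟩ := ((hc.image (continuous_abs.comp hf)).isCompact).bddAbove
    exact ⟨C, fun x => hC ⟨x, trivial, rfl⟩⟩
  · exact (Homeomorph.mk f.toEquiv hf (rev f.toEquiv hf)).isOpenMap
  · letI := TopologicalSpace.induced δ inferInstance
    exact IsEmbedding.t2Space (f := δ) ⟨⟨rfl⟩, hi⟩
  · have h1 : ∀ᶠ y : Sig ℝ in 𝓝 0, y.1 0 = 0 := tend.1 tendsto_id 0
    replace h1 := (congrArg (fun s => @nhds _ s 0) h).le h1
    rw [nhds_induced, map_zero, nhds_pi] at h1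
    obtain ⟨V, hV, he⟩ := mem_comap.1 h1
    obtain ⟨F, t, ht, hF⟩ := mem_pi'.1 hV
    have := he (a := ext0 (insert 0 F).countable_toSet 1) (hF fun i hi => by
      simpa [δ, ext0, Finset.mem_coe.1 hi] using mem_of_mem_nhds (ht i))
    simp [ext0] at this

end Pool.Agent.Results.MP_f1805c_gt.NotMinimal
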